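import Pool.Agent.Run7.h226.TtB

/-!
# For abelian varieties without endomorphisms codimension two decides the Tate conjecture

Let `X` be an abelian variety of dimension `g` over the algebraic closure `k` of a finitely
generated field `k₁` of characteristic zero with `End X = ℤ`, defined over `k₁`, and let `ℓ` be a
prime number. We use the theorem of Deligne that Hodge classes are Tate classes (`HodgeIsTate`), and
the theorem of Faltings that the `ℓ`-adic cohomology of `X × X` is semisimple
(`SemisimpleSquare`).

* If every Tate class of codimension at most two on `X ^ 4` is a `ℚ_ℓ`-linear combination of Hodge
  classes, then every Tate class, of any codimension, on any power of `X` is a `ℚ_ℓ`-linear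
  combination of Hodge classes: the Mumford-Tate conjecture for `X` can be tested on the Tate
  classes of codimension two on `X ^ 4`.
* Let `m = 3`; or `m = 2`, if `2g` is not an odd power of the central binomial coefficient
  `C(4k + 2, 2k + 1)` for any `k ≥ 1`, that is, if `g` is not one of the numbers
  `10, 126, 1716, 4000, 24310, …`. If the Tate conjecture holds in codimension at most `m` for
  `X ^ (2m)`, then the Tate conjecture and the Hodge conjecture hold in all codimensions for all
  powers of `X`.

The powers and the codimensions do not depend on `g`. The theorem is proved for any variety `X` with
a polarised Hodge structure such that `H^1(X)` has dimension `2 dim X`, generates the algebra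
`H(X)` and has only the rational numbers as endomorphisms, and any continuous action of a compact
group on the `ℓ`-adic cohomology of the powers of `X` with the two properties above.

The proof. Let `h` be the Lie algebra of the Hodge group of `X`, a semisimple Lie algebra of
matrices over the field of complex numbers; we fix an embedding of `ℚ_ℓ`. For every `γ` in a small
open subgroup of the Galois group we have the logarithm `Z` of the operator given by `γ` on
`H(X, ℚ_ℓ)` and the logarithm `u` of the number `χ γ`, both defined by limits of
`(g ^ (ℓ ^ n) - 1) / ℓ ^ n`. The normalised logarithm `Z - (u / 2) deg` kills all Tate classes, so by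
the theorem of Deligne it kills all Hodge classes and belongs to `h`. Let `a` be the subspace of
`h` spanned by the normalised logarithms.

1. `a` is an ideal of `h`. The form on `H^1(X)` identifies matrices on `H^1(X)` with tensors of
   degree two, and matrices of tensors of degree two with tensors of degree four. The space
   spanned by the logarithms is stable under the Galois group, and by semisimplicity it is the
   image of an equivariant projector. This projector is a tensor of degree four, a Tate class of
   codimension two on `X ^ 4`. By the hypothesis it is a combination of Hodge classes, hence
   invariant under `h`; so `a` is stable under the adjoint action of `h`.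
2. The centraliser of `a` in `h` is zero: its elements commute with an open subgroup of the Galois
   group and are skew, hence are combinations of Tate classes of codimension one on `X ^ 2`, so they
   are combinations of endomorphisms of the Hodge structure by the hypothesis, and scalars by
   `End X = ℤ`; skew scalars are zero.
3. An ideal of `h` with trivial centraliser is `h`, by the positivity of the polarisation. So Tate
   classes are killed by `h` and are combinations of Hodge classes.
4. The second part follows with the earlier result (`CodimensionThree` for the Hodge conjecture) that
   all Hodge classes on all powers of `X` are generated by the Hodge classes of codimension at most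
   `m` on `X ^ (2m)`.

(No theory of `ℓ`-adic Lie groups, reductive groups or Tannakian categories is used, and everything
is proved from the definitions.)
-/

open CategoryTheory AlgebraicGeometry

universe u v

namespace Pool.Agent.Results.MP_640417_ag.CodimensionTwoDecides

open Pool.Agent.H914 Pool.Agent.H914.VarClass Pool.Agent.H914.VarClass.Obj
  Pool.Agent.H914.WeilCohomology Pool.Agent.Y121.AHS Pool.Agent.N996.FP Run7.h226

open Pool.Agent.Y133.Half (pw)

variable {k : Type u} [Field k] {𝒱 : VarClass k} {ops : CycleOps 𝒱}

/-- **Codimension two decides.** -/
theorem result (T : HodgeTheory ops) (X : 𝒱.Obj) (ψ : RForm T.W X)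
    (hψ : IsPolarisation T X ψ) (hX : OfAbelianType T X) (hE : OnlyScalars T X)
    (E : PrimeNumber T) (Γ : Type v) [Group Γ] [TopologicalSpace Γ]
    [IsTopologicalGroup Γ] [CompactSpace Γ] (R : GaloisAction E X Γ)
    (hD : HodgeIsTate R) (hF : SemisimpleSquare R) :
    ((∀ j ≤ 2, TateIsHodgeIn R 3 j) → ∀ n j, TateIsHodgeIn R n j) ∧
    ∀ m : ℕ, 2 ≤ m → (m = 2 → ¬ IsExceptional (2 * X.dim)) →
      (∀ j ≤ m, TateConjectureIn R (2 * m - 1) j) →
        (∀ n j, TateConjectureIn R n j) ∧ ∀ n, HodgeConjecture T (pw X n) :=
  ⟨tateIsHodge hψ hX hE hF hD, fun _ hm hexc hT =>
    ⟨tate_of_tate hψ hX hE hF hD hm (by omega) hexc hT,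
      hodge_of_tate hψ hX hE hD hm (by omega) hexc hT⟩⟩

end Pool.Agent.Results.MP_640417_ag.CodimensionTwoDecides
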