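import Pool.Agent.Run7.h552.NG.GTCnv

/-!
# The Tate conjecture for products of varieties with symplectic or orthogonal monodromy and a variety
which is not entangled with them

Let `k` be an algebraic closure of a field `F₀` which is finitely generated over `ℚ`, `Γ` the Galois
group of `F₀`, `W` the `ℓ`-adic cohomology with coefficients in an algebraic closure of `ℚ_ℓ`, `χ` the
inverse of the cyclotomic character. The theorem is proved for an abstract Weil cohomology theory whose
coefficient field is isomorphic to the complex numbers, with actions of a group `Γ` on the cohomology
rings of varieties (`GVar`); the Tate conjecture for the coefficients `ℚ_ℓ` and for their algebraic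
closure are equivalent.

Let `X_i` be varieties *of even or odd dimension* for which homological and numerical equivalence
coincide, whose transcendental cohomology `T_i` (the orthogonal complement of all algebraic classes)
is in the middle degree and irreducible under every open subgroup. Suppose that every `T_i` satisfies
one of the following local conditions, *each variety at a place of its own, which has nothing to do
with the places for the other varieties*. For odd dimension (the form on `T_i` is alternating):

* (isolated slope) a Frobenius element has on `T_i` a slope `a` of multiplicity one, with a different
  dual slope `a'` of multiplicity one, such that the numbers `a - z`, for the slopes `z ≠ a`, are not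
  of the form `x - y` with slopes `x ≠ a`, `y ≠ a'`: for example (curves) `0` and `1` once and all
  other slopes `1 / 2`, or `0` and `3` once and the others strictly between `1` and `2`;
* (height one) the slopes are `h + 3 c` and `h - 3 c`, once each, and others between `h - c` and
  `h + c`, and one of the latter is strictly between; or none is, but `dim T_i = 2 q + 2` with `q`
  different from `1`, `3`, `6`, `9`, `15`, `27`, and `T_i` is not a tensor product with a factor of
  dimension two: for Calabi-Yau threefolds this says that the Artin-Mazur formal group of the
  reduction has height one, and that the reduction is not ordinary or has one of these numbers;
* (semistable reduction) elements `g` of inertia groups, at any places, with `(g - 1) ^ 2 = 0` on `T_i`,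
  with rank two or with coprime defects (see `SmallDefects`), for example one node.

For even dimension (the form is symmetric; `dim T_i = 3` or `dim T_i ≥ 5`):

* (ordinary reduction) a Frobenius element has on `T_i` the slopes `h + c`, `h`, `h - c` with the
  multiplicities `p`, `q`, `p`, where `p = 1`, `q > 0`, `q ≠ 2`, or `p > 1`, `p` and `q` are coprime and
  `2 p ^ 2 (p ^ 2 + 1) < (q - 2 p) (q + p)`: for surfaces of geometric genus `p` with an ordinary
  reduction, for example K3 surfaces and hyperkähler varieties, and also for K3 surfaces with a
  reduction of height `p`;
* (maximal degeneration) an element `g` of an inertia group has on `T_i` the Jordan type of a K3 surface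
  of type III: `(g - 1) ^ 3 = 0`, `(g - 1) ^ 2 ≠ 0`, and `g - 1` has rank two.

Suppose that no two of the `T_i` are isomorphic up to a function on `Γ`; the pairs of dimensions `(2, 3)`
and `(4, 5)` for an alternating and a symmetric `T_i`, and `(8, 8)` for two symmetric ones (where the
Lie algebras have exceptional isomorphisms or automorphisms) are excluded.

Let `Z` be a variety whose cohomology is generated, as an algebra, by classes on which an open subgroup
acts by a power of `χ` (such as algebraic classes) and by stable subspaces `U` such that for every `i`

* either `T_i` and `U` are *not entangled*: there is no Lie algebra `L` of operators on `U`, stable
  under conjugation by `Γ`, with a `Γ`-equivariant homomorphism of Lie algebras from `L` to the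
  operators on `T_i` with a noncommutative image (if there is one, then the adjoint representation
  `sp(T_i)` or `so(T_i)` is a subquotient of `End(U)`, so the cohomology of `Z` sees the variety `X_i`);
  nothing else is assumed about `U`, in particular `Z` may be *any* variety whose cohomology is not
  entangled with the `T_i`, with arbitrary Betti numbers;
* or `U` is small with respect to `T_i`, by slopes or by the rank of `g - 1` at one place, or by the
  dimension: `2 (dim U) ^ 2 < dim T_i (dim T_i - 1)`, or `U` selfdual and `dim U + 1 < dim T_i`. For
  example all products of curves, surfaces and abelian varieties of bounded genus, with any numbers of
  factors, are allowed if the `T_i` are large enough.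

**Theorem.** Let `Y = X_{i_1}^{n_1} × ... × X_{i_r}^{n_r} × Z` with different indices, where
`n_j < dim T_{i_j}` for the factors of even dimension and the other exponents are arbitrary. Then the
Tate conjecture for `Y` over all finite extensions of `F₀`, in all codimensions, is *equivalent* to the
Tate conjecture for `Z`. In particular (`Z` a point, a curve, an abelian variety for which the
conjecture is known) the Tate conjecture holds for infinitely many new varieties, such as the products
of powers of curves, K3 surfaces, Calabi-Yau threefolds and hypersurfaces of both parities.

The theorem `MP_c184fc_ag.CalabiYauTowers` of this run treats odd dimension and Hodge-Tate weights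
`(1, q, q, 1)`, the starting files `Q71/TM` even dimension (with K3 slopes or maximal degenerations),
and `MP_0d42ed_ag.HodgeTateTowers` even dimension and Hodge-Tate weights; the starting nodal families
(`Y127.PLFamily`) allow both parities, but every member has a node at a place where all others are
unramified. Here members of both parities and of different kinds stand together, and nothing is known
about common places.

Idea: let `L` be the Lie algebra of all simultaneous derivations of the equivariant multilinear maps
between the representations of subgroups of finite index. It contains, for every place, the operator
which is multiplication by the slope on the generalised eigenspaces of Frobenius, and the logarithms of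
the elements `g`. By the local conditions it acts on `T_i` by the whole symplectic or orthogonal Lie
algebra, up to scalars. By the theorem of Goursat `L` is as large as possible, unless there is an
isomorphism between the simple Lie algebras of two `T_i`, or one of the `T_i` is entangled with `U`:
two symplectic ones are compared by their extremal elements (rank one), two orthogonal ones by their
isotropic planes, and a symplectic and an orthogonal one are never isomorphic. Then the first
fundamental theorems for the symplectic and orthogonal groups, with values in the cohomology of the
other factors, describe all classes which are fixed by an open subgroup.
-/

universe u

namespace Pool.Agent.Results.MP_640417_ag.NoEntanglement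

open Pool.Agent.H914 Pool.Agent.H914.WeilCohomology Run7.h552.NG
open Pool.Agent.TH125.Gal (GVar GTower TateConjecture)

/-- **The Tate conjecture for a product of powers of varieties with symplectic or orthogonal
monodromy and a variety which is not entangled with them is equivalent to the conjecture for the
latter.** -/
theorem result {k : Type u} [Field k] {𝒱 : VarClass k} {ops : CycleOps 𝒱}
    {W : WeilCohomology.{u, 0} ops} (e : Nonempty (W.K ≃+* ℂ)) {Γ : Type} [Group Γ]
    {χ : CharOf W Γ} {ι : Type} {X : ι → GVar W Γ} {Z : GVar W Γ} (h : FreeTateFamily χ X Z)
    {S : Set ι} {Y : GVar W Γ} (hY : GTower X Z S Y) (hG : GaloisVar χ Y) :
    (∀ Δ : Subgroup Γ, Δ.FiniteIndex → TateOver χ Δ Y) ↔ TateConjecture χ Z := by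
  obtain ⟨e⟩ := e
  have : IsAlgClosed W.K := IsAlgClosed.of_ringEquiv ℂ W.K e.symm
  exact h.iff e hY hG

end Pool.Agent.Results.MP_640417_ag.NoEntanglement
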