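import Pool.Agent.Run7.h877.TX.Conv

/-!
# One power of an abelian variety decides the Tate conjecture for all its powers

Let `X` be an abelian variety of dimension `g` over the algebraic closure `k` of a finitely
generated field `k₁` of characteristic zero, defined over `k₁`, with an arbitrary algebra of
endomorphisms, and let `ℓ` be a prime number. The known theorems which are used are hypotheses:

* Hodge classes on the powers of `X` are Tate classes (Deligne),
* the representation of the Galois group on `H(X, ℚ_ℓ)` is semisimple (Faltings),
* if `X` has factors of type IV: the centre of the Lie algebra of the Hodge group of `X` is contained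
  in the Lie algebra of the `ℓ`-adic monodromy group (`CentreKillsTateClasses`; Vasiu, Ullmo and
  Yafaev; for abelian varieties with complex multiplication Pohlmann).

**Theorem.**

1. If the Tate classes of codimension two on the one variety `X ^ 4` are `ℚ_ℓ`-linear combinations of
   Hodge classes, then all Tate classes, of any codimension, on all powers of `X` are `ℚ_ℓ`-linear
   combinations of Hodge classes. (So the Mumford-Tate conjecture for `X` is a statement about the
   Tate classes of codimension two on `X ^ 4`.)
2. Let `N = 2` if no simple factor of `X` is of type IV, and `N = max(4, 2 g ^ (2 g))` in general.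
   Suppose that the Tate conjecture holds for the one power `X ^ N`; if `N = 2`, suppose also that the
   Tate classes of codimension two on `X ^ 4` are combinations of Hodge classes (for instance that the
   Tate conjecture holds for them). Then the Tate conjecture and the Hodge conjecture hold for all
   powers of `X`, in all codimensions (the Hodge conjecture is stated for the images `1 ⊗ c` of the
   Hodge classes in the `ℓ`-adic cohomology; the map `c ↦ 1 ⊗ c` is injective).

So for an abelian variety without factors of type IV the Tate conjecture for all powers, in all
codimensions, follows from the Tate conjecture for `X × X` and in codimension two for `X ^ 4`; and for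
every abelian variety it follows from the Tate conjecture for one power.

## Proof

1. Let `β` be the form of the polarisation on `V = H^1(X)`. Multilinear forms on `V` and classes in
   `V ⊗ ⋯ ⊗ V ⊂ H(X ^ n)` correspond to each other by the form `tr (x D ^ (g - 1) y)` (`D` an ample
   divisor): Hodge forms to Hodge classes, Tate forms to Tate classes. So Tate forms in four variables
   are combinations of Hodge forms; multiplying by `β`, the same holds for forms in two variables. Let
   `L` be the Lie algebra of the operators over `ℚ_ℓ` which kill all Tate forms, `t` the quartic form
   of the orthogonal projector onto `L` for the trace form of `V` (which is not degenerate on `L` by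
   semisimplicity), a Tate form. It is a combination of Hodge forms. So an operator `D` which kills
   all Hodge forms kills `t`, and `D - Q D` commutes with `L`; by `ℓ`-adic logarithms it commutes with
   an open subgroup of the Galois group; so it is a combination of endomorphisms of the Hodge
   structure, in the centre, and it kills the Hodge forms, and vanishes if the centre is self-adjoint.
   In general it is a combination of rational derivations of this kind, and they kill all Tate classes
   by the theorem on the centre (here the derivations of the algebras `H(X ^ n)` are constructed).
   So Tate forms are killed by the Lie algebra of the Hodge group, and all forms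
   `(v_1, …, v_m) ↦ tr (c pr^* v_1 ⋯ pr^* v_m)` of a Tate class `c` are combinations of Hodge forms;
   since `H^1(X)` generates the algebra `H(X)`, `c` is a combination of Hodge classes.
2. This follows with the theorem on the Hodge side (`MP_802513_ag`, SquareTheorem, of the starting
   library): the Hodge classes on all powers of `X` are generated by the Hodge classes on `X ^ N`.

The first step is the theorem on two quartic classes for motives (`MP_b8862a_ag`,
TwoQuarticClasses, in coordinates), here for the cohomology of the powers of varieties.
-/

universe u

namespace Pool.Agent.Results.MP_640417_ag.OnePowerDecides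

open Pool.Agent.H914 Pool.Agent.H914.VarClass Pool.Agent.Y121.AHS Pool.Agent.N996.FP Run7.h226
  Run7.h877.SD
open Pool.Agent.Y133.Half (pw)

variable {k : Type u} [Field k] {𝒱 : VarClass k} {ops : CycleOps 𝒱}

/-- **One power decides the Tate conjecture for all powers.** -/
theorem result (T : HodgeTheory ops) (X : 𝒱.Obj) (ψ : RForm T.W X)
    (hψ : IsPolarisation T X ψ) (hX : OfAbelianType T X)
    (E : PrimeNumber T) (Γ : Type) [Group Γ] [TopologicalSpace Γ]
    [IsTopologicalGroup Γ] [CompactSpace Γ] (R : GaloisAction E X Γ)
    (hD : ∀ n j (a : E.H (pw X n)), IsHdg j a → IsTate R n j a)
    (hF : ContRep.Semisimple (R.r 0))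
    (hC : SelfAdjointCentre T X ψ ∨ CentreKillsTateClasses R) :
    (InSpan ℚ_[E.ℓ] (IsTate R 3 2) (IsHdg 2) →
      ∀ n j, InSpan ℚ_[E.ℓ] (IsTate R n j) (IsHdg j)) ∧
    ∀ N : ℕ, (SelfAdjointCentre T X ψ ∧ N = 2) ∨ N = max 4 (2 * X.dim ^ (2 * X.dim)) →
      (∀ j, InSpan ℚ_[E.ℓ] (IsTate R (N - 1) j) (IsAlgebraic j)) →
      (N = 2 → InSpan ℚ_[E.ℓ] (IsTate R 3 2) (IsHdg 2)) →
        (∀ n j, InSpan ℚ_[E.ℓ] (IsTate R n j) (IsAlgebraic j)) ∧
          ∀ n j (a : E.H (pw X n)), IsHdg j a → IsAlgebraic j a := by
  simp only [isAlgebraic_eq]
  exact ⟨tateIsHodge hψ hX hF hD hC, fun _ hN hT h2 =>
    ⟨tate_of_tate hψ hX hF hD hC hN hT h2, hdg_alg hψ hX hD hN hT⟩⟩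

end Pool.Agent.Results.MP_640417_ag.OnePowerDecides
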